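import Pool.Agent.Lib.MP_1ae3da_al.L.D4

/-! The Galois-McKay conjecture for odd `p` and the finite groups `G` with a normal central product
of perfect central quotients of groups `SL_m(q)`, `Sp_2m(q)`, `Spin_m(q)`, `SU_m(q)`, of exceptional
Chevalley groups with `p ∣ q - 1` and of perfect groups with a split `BN`-pair and large orbits of
the torus, above which all factors have cyclic Sylow `p`-subgroups, or are alternating groups, or
`PSL_2(q)`, or `PSL_m(q)` with a large power of `p` dividing `q - 1`. -/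

namespace Pool.Agent.Results.MP_1ae3da_al.AltComposition

open Pool.Agent.Lib.MP_1ae3da_al

theorem result (p : ℕ) (hp : p.Prime) (h2 : p ≠ 2) (G : Type) [Group G] [Finite G]
    (C : Set (Subgroup G)) (hj : ∀ g : G, ∀ S ∈ C, S.map (MulAut.conj g).toMonoidHom ∈ C)
    (hc : ∀ S ∈ C, ∀ T ∈ C, S ≠ T → ∀ x ∈ S, ∀ y ∈ T, x * y = y * x)
    (hl : ∀ S ∈ C, (commutator S = ⊤ ∧ (JC.Clg p S ∨ JV.Exc p S)) ∨ WG.SplitW p S)
    (h : WG.ChainW p (sSup C) ⊤) (P : Sylow p G) :
    ∃ f : NSV.IrrP p G ≃ NSV.IrrP p (Subgroup.normalizer (P : Set G)),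
      ∀ γ : MulAut G, (∀ x, γ x ∈ P ↔ x ∈ P) → (∀ S ∈ C, S.map γ.toMonoidHom ∈ C) →
        ∀ σ ∈ NSV.H0 p, ∀ θ θ' : NSV.IrrP p G, (∀ x, θ'.1 x = σ (θ.1 (γ x))) →
          ∀ y y' : Subgroup.normalizer (P : Set G), (y' : G) = γ y →
            (f θ').1 y = σ ((f θ).1 y') :=
  WG.final10 p hp h2 G C hj hc hl h P

end Pool.Agent.Results.MP_1ae3da_al.AltComposition
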