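import Pool.Agent.Lib.MP_1ae3da_al.GAll

/-! The alternating groups of degree at least eight satisfy the inductive Galois-McKay condition
of Navarro, Spaeth and Vallejo for every odd prime dividing their order. -/

namespace Pool.Agent.Results.MP_1ae3da_al.InductiveAlt

open Pool.Agent.Lib.MP_1ae3da_al

theorem result (n p : ℕ) (hn : 8 ≤ n) (hp : p.Prime) (hp2 : p ≠ 2) (hpn : p ≤ n) (X : Type)
    [Group X] [Finite X] (f : X →* alternatingGroup (Fin n)) (hX : commutator X = ⊤)
    (hf : Function.Surjective f) (hc : f.ker ≤ Subgroup.center X) (hk : f.ker ≠ ⊥)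
    (R : Sylow p X) : NSV.Inductive p X R :=
  GM.thm1 n p hn hp hp2 hpn X f hX hf hc hk R

end Pool.Agent.Results.MP_1ae3da_al.InductiveAlt
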