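import Pool.Agent.Lib.MP_1ae3da_al.B.Cls
import Pool.Agent.Lib.MP_1ae3da_al.B.Sp
import Pool.Agent.Lib.MP_1ae3da_al.L.Sl
import Pool.Agent.Lib.MP_1ae3da_al.I.Fin

/-! The inductive Galois-McKay condition of Navarro, Spaeth and Vallejo for the central quotients
of `SL_m(q)`, `SU_m(q)`, `Sp_2m(q)` and of the spin groups, at the odd primes `p ∣ q - 1`. -/

namespace Pool.Agent.Results.MP_1ae3da_al.InductiveClassical

open Pool.Agent.Lib.MP_1ae3da_al

theorem result (p : ℕ) (hp : p.Prime) (h2 : p ≠ 2) (X : Type) [Group X] (h : JC.Clg p X)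
    (R : Sylow p X) : ∃ N : Subgroup X, NSV.IndN p X R N := by
  obtain ⟨K, _, _, m, ⟨a, b, c, π, d, e⟩ | ⟨a, b, π, d, e⟩ | ⟨Q, a, b, c, π, d, e⟩ |
    ⟨_, q, a, b, c, c', π, d, e⟩⟩ := h
  · exact JM.sl_all2 p hp h2 K m b a c X π d e R
  · exact JI.sp_all p hp h2 K m b a X π d e R
  · exact JP.spin_all2 p hp h2 K a m b Q c X π d e R
  · exact JI.su_all p hp h2 K q a b m c' c X π d e R

end Pool.Agent.Results.MP_1ae3da_al.InductiveClassical
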