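import Pool.Agent.Lib.MP_1ae3da_al.H.Bnd
import Pool.Agent.Lib.MP_1ae3da_al.H.Fin
import Pool.Agent.Lib.MP_1ae3da_al.B.Fin
import Pool.Agent.Lib.MP_1ae3da_al.B.Yz

/-! The inductive Galois-McKay condition of Navarro, Spaeth and Vallejo for the exceptional groups
of Lie type at the primes `p ∣ q - 1`, and for all groups with a Bruhat decomposition whose torus
has long orbits. -/

namespace Pool.Agent.Results.MP_1ae3da_al.InductiveLie

open Pool.Agent.Lib.MP_1ae3da_al

theorem result (p : ℕ) (hp : p.Prime) (h2 : p ≠ 2) (X : Type) [Group X] [Finite X]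
    (h : JV.Bnd p X ∨ JV.Ecg p X ∨ JV.Twg p X) (R : Sylow p X) :
    ∃ N : Subgroup X, NSV.IndN p X R N := by
  rcases h with ⟨r, U, N, T, hr, hpr, hU, rfl, hab, hn, hB, hv⟩ | h | h
  · exact JV.bw_all hp h2 hr hU ⟨hpr, hab, hn, hB, hv⟩ R
  · exact h.ind hp h2 R
  · exact h.ind hp h2 R

end Pool.Agent.Results.MP_1ae3da_al.InductiveLie
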